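import Pool.Agent.H555R2.PF.Fin

set_option autoImplicit false

namespace Pool.Agent.H555R2.PF

open Fm

variable {F : List Rule}

theorem disj_mem (hF : IsFrege F) : ∃ c : ℕ, ∀ (z : ℕ) (lits : List Fm) (M : ℕ), 1 ≤ M →
    (disjL z lits).size ≤ M → ∀ l ∈ lits, ∀ Γ : Set Fm,
      Can F Γ [imp (neg (disjL z lits)) (neg l)] (c * M * lits.length) := by
  obtain ⟨c₁, h₁⟩ := schemaL hF [] (imp (neg (or (var 0) (var 1))) (neg (var 0))) (by
    intro v _; simp [eval]; tauto)
  obtain ⟨c₂, h₂⟩ := schemaL hF [imp (neg (var 1)) (neg (var 2))]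
    (imp (neg (or (var 0) (var 1))) (neg (var 2))) (by
    intro v h; simp [eval] at h ⊢; tauto)
  refine ⟨c₁ + c₂, fun z lits M hM => ?_⟩
  induction lits with
  | nil => intro _ D hD; simp at hD
  | cons l ls ih =>
    intro hs C hC Γ
    have hs' : l.size ≤ M ∧ (disjL z ls).size ≤ M := by
      simp only [disjL, size] at hs; omega
    rcases List.mem_cons.1 hC with rfl | hC
    · refine (h₁ [C, disjL z ls] M hM ?_ Γ (by simp)).mono subset_rfl ?_
      · intro X hX; simp at hX; rcases hX with rfl | rfl; exacts [hs'.1, hs'.2]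
      · simp only [List.length_cons]
        calc c₁ * M ≤ (c₁ + c₂) * M := Nat.mul_le_mul_right _ (by omega)
          _ ≤ (c₁ + c₂) * M * (ls.length + 1) := Nat.le_mul_of_pos_right _ (Nat.succ_pos _)
    · have h3 := ih hs'.2 C hC Γ
      have hCs : C.size ≤ M := by
        have := size_le_psize hC
        have h4 := hs'.2
        rw [disjL_size] at h4; omega
      have h5 := h₂ [l, disjL z ls, C] M hM (by
        intro X hX; simp at hX; rcases hX with rfl | rfl | rfl
        exacts [hs'.1, hs'.2, hCs]) (Γ ∪ {B | B ∈ [imp (neg (disjL z ls)) (neg C)]}) (by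
          intro A hA
          simp only [List.mem_singleton] at hA
          subst hA
          right; simp [subst, asg])
      refine (h3.cut h5).mono subset_rfl ?_
      simp only [List.length_cons]; nlinarith

theorem nonconst (hF : IsFrege F) : ∃ c : ℕ, ∀ (z : ℕ) (A : Fm) (B : List ℕ) (M : ℕ),
    (∀ n ∈ A.vars, n ∈ B) → (∀ v, A.eval v) → A.size ≤ M → (NCF z B).size + 1 ≤ M →
    ∀ Γ : Set Fm, Can F Γ [or A (NCF z B)] (c * M * (A.size + B.length * (B.length + 1) + 1)) := by
  obtain ⟨c₁, h₁⟩ := disj_mem hF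
  obtain ⟨c₂, h₂⟩ := evalL hF
  obtain ⟨c₃, h₃⟩ := schemaL hF [imp (var 0) (neg (neg (var 1)))] (imp (var 0) (var 1)) (by
    intro v h; simp [eval] at h ⊢; tauto)
  obtain ⟨c₄, h₄⟩ := schemaL hF [imp (neg (var 1)) (var 0), imp (neg (var 2)) (var 0)]
    (or (var 0) (and (var 1) (var 2))) (by
    intro v h; simp [eval] at h ⊢; tauto)
  refine ⟨2 * (c₁ + c₂ + c₃) + c₄, fun z A B M hB hA hAM hNM Γ => ?_⟩
  have hM : 1 ≤ M := (size_pos A).trans hAM
  have hd : (disjL z (B.map var)).size + 1 ≤ M ∧
      (disjL z (B.map (fun b => neg (var b)))).size + 1 ≤ M := by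
    simp only [NCF, size] at hNM; omega
  set d1 := disjL z (B.map var) with hd1
  set d2 := disjL z (B.map (fun b => neg (var b))) with hd2
  have hcv : ∀ t, cv t A = true := fun t => (cv_eval t A).2 (hA _)
  -- all variables false
  have k1 : Can F Γ (B.map fun b => imp (neg d1) (neg (var b))) (B.length * (c₁ * M * B.length)) :=
    Can.many _ _ B fun b hb => by
      have := h₁ z (B.map var) M hM (Nat.le_of_succ_le hd.1) (var b) (List.mem_map.2 ⟨b, hb, rfl⟩) Γ
      simpa using this
  have p1 := h₂ false (neg d1) M hM (by simp only [size]; omega) A hAM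
    (Γ ∪ {Y | Y ∈ B.map fun b => imp (neg d1) (neg (var b))}) (by
      intro n hn
      right
      exact List.mem_map.2 ⟨n, hB n hn, by simp [sg]⟩)
  -- all variables true
  have k2 : Can F Γ (B.map fun b => imp (neg d2) (var b))
      (B.length * (c₁ * M * B.length + c₃ * M)) :=
    Can.many _ _ B fun b hb => by
      have r := h₁ z (B.map (fun b => neg (var b))) M hM (Nat.le_of_succ_le hd.2) (neg (var b))
        (List.mem_map.2 ⟨b, hb, rfl⟩) Γ
      rw [← hd2] at r
      have s := h₃ [neg d2, var b] M hM (by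
        intro X hX; simp at hX; rcases hX with rfl | rfl
        · simp only [size]; omega
        · simpa [size] using hM) (Γ ∪ {Y | Y ∈ [imp (neg d2) (neg (neg (var b)))]}) (by
        intro Y hY; simp only [List.mem_singleton] at hY; subst hY
        right; simp [subst, asg])
      have t := (r.cut s).sub (G' := [imp (neg d2) (var b)]) (by simp [subst, asg])
      simpa using t
  have p2 := h₂ true (neg d2) M hM (by simp only [size]; omega) A hAM
    (Γ ∪ {Y | Y ∈ B.map fun b => imp (neg d2) (var b)}) (by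
      intro n hn
      right
      exact List.mem_map.2 ⟨n, hB n hn, by simp [sg]⟩)
  rw [hcv] at p1 p2
  have q := (k1.cut p1).append (k2.cut p2)
  have f := h₄ [A, d1, d2] M hM (by
    intro X hX; simp at hX; rcases hX with rfl | rfl | rfl
    exacts [hAM, by omega, by omega])
    (Γ ∪ {Y | Y ∈ [imp (neg d1) (sg true A)] ++ [imp (neg d2) (sg true A)]}) (by
      intro Y hY; simp only [List.mem_cons, List.not_mem_nil, or_false] at hY
      rcases hY with rfl | rfl <;> right <;> simp [subst, asg, sg])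
  refine ((q.cut f).sub (by simp [subst, asg, NCF, ← hd1, ← hd2])).mono subset_rfl ?_
  have : 0 ≤ c₃ * M * (B.length * B.length) := Nat.zero_le _
  nlinarith [Nat.zero_le (c₂ * M * (B.length * B.length)), Nat.zero_le (c₂ * M * B.length),
    Nat.zero_le (c₂ * M), Nat.zero_le (c₃ * M), Nat.zero_le (c₁ * M * A.size),
    Nat.zero_le (c₃ * M * A.size), Nat.zero_le (c₄ * M * A.size), Nat.zero_le (c₁ * M),
    Nat.zero_le (c₄ * M * (B.length * B.length)), Nat.zero_le (c₄ * M * B.length),
    Nat.zero_le (c₁ * M * B.length)]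

/-! ### from the blocks to the copies -/

theorem copies_size (A : Fm) (k : ℕ) : (copies A k).size = (k + 1) * A.size + k := by
  induction k with
  | zero => simp [copies, copy, size_rename]
  | succ k ih => simp only [copies, size, ih, copy, size_rename]; ring

theorem chain (hF : IsFrege F) : ∃ c : ℕ, ∀ (z : ℕ) (A : Fm) (M : ℕ), (∀ v, A.eval v) →
    ∀ (m i : ℕ), 40 * (m + i + 1) * A.size + 20 ≤ M → ∀ Γ : Set Fm,
      imp (conjL z (NL z A (i + 1) m)) (copies A i) ∈ Γ →
      Can F Γ [imp (conjL z []) (copies A (i + m))] (c * M * (A.size * A.size) * m) := by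
  obtain ⟨c₁, h₁⟩ := nonconst hF
  obtain ⟨c₂, h₂⟩ := schemaL hF [or (var 0) (var 1), imp (and (var 1) (var 2)) (var 3)]
    (imp (var 2) (or (var 0) (var 3))) (by
    intro v h; simp [eval] at h ⊢; tauto)
  refine ⟨4 * c₁ + c₂, fun z A M hA m => ?_⟩
  induction m with
  | zero =>
    intro i _ Γ hΓ
    exact (Can.hyp hΓ).mono subset_rfl (Nat.zero_le _)
  | succ m ih =>
    intro i hM Γ hΓ
    have hs1 := size_pos A
    have hbl := bl_length (i + 1) A
    have hcs : (copy (i + 1) A).size = A.size := size_rename _ _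
    have hNC : (NCF z (bl (i + 1) A)).size + 1 ≤ M := by rw [NCF_size]; nlinarith
    have r := h₁ z (copy (i + 1) A) (bl (i + 1) A) M (fun n hn => copy_vars hn) (by
      intro v; rw [copy, rename, eval_subst]; exact hA _) (by rw [hcs]; nlinarith) hNC Γ
    have hN := NL_size z A m (i + 1 + 1)
    have s := h₂ [copy (i + 1) A, NCF z (bl (i + 1) A), conjL z (NL z A (i + 1 + 1) m),
      copies A i] M (by omega) (by
      intro X hX; simp at hX; rcases hX with rfl | rfl | rfl | rfl
      · rw [hcs]; nlinarith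
      · omega
      · nlinarith
      · rw [copies_size]; nlinarith)
      (Γ ∪ {Y | Y ∈ [or (copy (i + 1) A) (NCF z (bl (i + 1) A))]}) (by
      intro Y hY; simp only [List.mem_cons, List.not_mem_nil, or_false] at hY
      rcases hY with rfl | rfl
      · right; simp [subst, asg]
      · left; simpa [subst, asg, NL, conjL] using hΓ)
    have t := ih (i + 1) (by nlinarith)
      (Γ ∪ {Y | Y ∈ [imp (conjL z (NL z A (i + 1 + 1) m)) (copies A (i + 1))]}) (by
      right; simp)
    have u := ((r.cut s).sub (G' := [imp (conjL z (NL z A (i + 1 + 1) m)) (copies A (i + 1))])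
      (by simp [subst, asg, copies])).cut t
    have e1 : i + 1 + m = i + (m + 1) := by omega
    rw [e1] at u
    refine u.mono subset_rfl ?_
    have h5 : (copy (i + 1) A).size + (bl (i + 1) A).length * ((bl (i + 1) A).length + 1) + 1 ≤
        4 * (A.size * A.size) := by
      rw [hcs]
      have : (bl (i + 1) A).length * ((bl (i + 1) A).length + 1) ≤ A.size * (A.size + 1) :=
        Nat.mul_le_mul hbl (by omega)
      nlinarith
    have h6 := Nat.mul_le_mul_left (c₁ * M) h5
    have h7 : c₂ * M ≤ c₂ * M * (A.size * A.size) :=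
      Nat.le_mul_of_pos_right _ (Nat.mul_pos hs1 hs1)
    nlinarith

/-! ### renaming an extended Frege proof -/

theorem efProof_rename {A : Fm} {k : ℕ} {L : List Fm} (h : EFProof F A k L) {f : ℕ → ℕ}
    (hf : Function.Injective f) : EFProof F (A.rename f) k (L.map (Fm.rename f)) := by
  have hmem : ∀ (q : ℕ) (C : Fm), q ∉ C.vars → f q ∉ (C.rename f).vars := by
    intro q C hq hq'
    rw [vars_rename, Finset.mem_image] at hq'
    obtain ⟨n, hn, hnq⟩ := hq'
    exact hq (hf hnq ▸ hn)
  induction h with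
  | nil => exact EFProof.nil
  | @rule k L B hL hB ih =>
    obtain ⟨r, hr, σ, h1, h2⟩ := hB
    refine EFProof.rule ih ⟨r, hr, fun n => (σ n).rename f, ?_, ?_⟩
    · rw [h1]; exact subst_subst _ _ _
    · intro p hp
      refine List.mem_map.2 ⟨_, h2 p hp, ?_⟩
      exact subst_subst _ _ _
  | @ext k L q φ hL hq1 hq2 hq3 ih =>
    refine EFProof.ext (q := f q) (φ := φ.rename f) ih (hmem q φ hq1) ?_ (hmem q A hq3)
    intro C hC
    obtain ⟨C', hC', rfl⟩ := List.mem_map.1 hC
    exact hmem q C' (hq2 C' hC')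

theorem psize_rename (f : ℕ → ℕ) (L : List Fm) : psize (L.map (Fm.rename f)) = psize L := by
  induction L with
  | nil => rfl
  | cons B L ih => rw [List.map_cons, psize_cons, psize_cons, ih, size_rename]

theorem permProof_cut {L : List Fm} (h : PermProof F L) {B : Fm} (hB : B ∈ L) :
    ∃ L', PermProof F (B :: L') ∧ psize (B :: L') ≤ psize L := by
  induction h with
  | nil => simp at hB
  | @rule L C hL hC ih =>
    rcases List.mem_cons.1 hB with rfl | hB
    · exact ⟨L, PermProof.rule hL hC, le_rfl⟩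
    · obtain ⟨L', h1, h2⟩ := ih hB
      exact ⟨L', h1, by rw [psize_cons C]; omega⟩
  | @perm L C hL hC ih =>
    rcases List.mem_cons.1 hB with rfl | hB
    · exact ⟨L, PermProof.perm hL hC, le_rfl⟩
    · obtain ⟨L', h1, h2⟩ := ih hB
      exact ⟨L', h1, by rw [psize_cons C]; omega⟩

/-- **Main theorem.** For every Frege system `F` there is a constant `c` such that: if `A` has an
extended Frege proof of size `s` using the extension rule `k` times, then the disjunction of
`k + 1` copies of `A` in pairwise disjoint sets of variables has a proof of size at most `c * s^5`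
in Frege + permutation. -/
theorem main (hF : IsFrege F) : ∃ c : ℕ, ∀ (A : Fm) (k : ℕ) (L : List Fm),
    EFProof F A k (A :: L) → ∃ L' : List Fm, PermProof F (copies A k :: L') ∧
      psize (copies A k :: L') ≤ c * psize (A :: L) ^ 5 := by
  obtain ⟨c₁, h₁⟩ := deduction hF
  obtain ⟨c₂, h₂⟩ := conj_mem hF
  obtain ⟨c₃, h₃⟩ := loop hF
  obtain ⟨c₄, h₄⟩ := chain hF
  obtain ⟨c₅, h₅⟩ := schemaL hF [imp (var 0) (imp (var 1) (var 2)), var 1]
    (imp (var 0) (var 2)) (by
    intro v h; simp [eval] at h ⊢; tauto)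
  obtain ⟨c₆, h₆⟩ := schemaL hF [] (imp (imp (var 0) (var 0)) (imp (var 1) (var 1))) (by
    intro v h; simp [eval])
  obtain ⟨c₇, h₇⟩ := schemaL hF [imp (var 0) (var 1), var 0] (var 1) (by
    intro v h; simp [eval] at h ⊢; tauto)
  obtain ⟨c₈, h₈⟩ := schemaL hF [] (imp (var 0) (var 0)) (by
    intro v h; simp [eval])
  obtain ⟨c₉, h₉⟩ := schemaL hF [imp (var 0) (var 1)]
    (imp (imp (var 2) (var 2)) (imp (var 0) (var 1))) (by
    intro v h; simp [eval] at h ⊢; tauto)
  refine ⟨1000 * (c₁ + c₂ + c₃ + c₄ + c₅ + c₆ + c₇ + c₈ + c₉), fun A k L hL => ?_⟩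
  have hf : Function.Injective (fun v : ℕ => Nat.pair 0 v) := by
    intro a b hab
    exact (Nat.pair_eq_pair.1 hab).2
  have hL0 := efProof_rename hL hf
  set A' := A.rename (fun v => Nat.pair 0 v) with hA'
  have hcopy : copy 0 A = A' := rfl
  set L0 := (A :: L).map (Fm.rename fun v => Nat.pair 0 v) with hL0def
  set s := psize (A :: L) with hs
  have hs0 : psize L0 = s := psize_rename _ _
  have hsA : A.size ≤ s := size_le_psize (by simp)
  have hA'sz : A'.size = A.size := size_rename _ _
  have hs1 : 1 ≤ s := (size_pos A).trans hsA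
  obtain ⟨Ds, g1, g2, g3, g3', g4⟩ := h₁ A' k L0 hL0
  have hks : k ≤ s := by
    rw [← g1, ← hs0]
    exact (length_le_psize Ds).trans g3'
  obtain ⟨z, hz⟩ := vars_nonempty A'
  set M := 100 * s ^ 2 with hMdef
  have hss : s ≤ s ^ 2 := by nlinarith
  have h1s : 1 ≤ s ^ 2 := hs1.trans hss
  have hM1 : 1 ≤ M := by omega
  have hE : (conjL z Ds).size ≤ 2 * s + 3 := by
    rw [conjL_size]
    have := length_le_psize Ds
    omega
  have hkA : k * A.size ≤ s ^ 2 := by nlinarith
  -- the conjunction of the extension axioms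
  have a1 : Can F ∅ (Ds.map (imp (conjL z Ds))) (Ds.length * (c₂ * M * Ds.length)) :=
    Can.many _ _ Ds fun D hD => h₂ z Ds M hM1 (by omega) D hD ∅
  have a2 := g4 (conjL z Ds) M hM1 (by omega) (by
    intro B hB
    have := size_le_psize hB
    omega) (∅ ∪ {Y | Y ∈ Ds.map (imp (conjL z Ds))}) (by
      intro D hD; right; exact List.mem_map.2 ⟨D, hD, rfl⟩)
  have hAmem : A' ∈ L0 := List.mem_map.2 ⟨A, by simp, rfl⟩
  have a3 := (a1.cut a2).sub (G' := [imp (conjL z Ds) A']) (by
    intro B hB; simp only [List.mem_singleton] at hB; subst hB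
    exact List.mem_map.2 ⟨A', hAmem, rfl⟩)
  have a4 := h₉ [conjL z Ds, A', var z] M hM1 (by
    intro X hX; simp at hX; rcases hX with rfl | rfl | rfl
    · omega
    · omega
    · simpa [size] using hM1) (∅ ∪ {Y | Y ∈ [imp (conjL z Ds) A']}) (by
    intro Y hY; simp only [List.mem_singleton] at hY; subst hY
    right; simp [subst, asg])
  have a5 := (a3.cut a4).sub (G' := [imp (conjL z []) (imp (conjL z Ds) A')]) (by
    simp [subst, asg, conjL])
  -- validity of A
  have hval : ∀ v, A.eval v := by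
    intro v
    obtain ⟨D, e1, e2, -⟩ := a3 [] PermProof.nil (by simp)
    have hv := permProof_sound hF e1 _ (e2 (imp (conjL z Ds) A') (by simp))
    -- an assignment for the extension variables
    have hinj := hf
    obtain ⟨w, hw1, hw2⟩ := exists_sat g2 (fun n => v (Nat.unpair n).2)
    have hconj : ∀ Ds' : List Fm, (∀ D ∈ Ds', D.eval w) → (conjL z Ds').eval w := by
      intro Ds'
      induction Ds' with
      | nil => intro _; simp [conjL, eval]
      | cons D Ds' ih =>
        intro h
        exact ⟨h D (by simp), ih fun C hC => h C (by simp [hC])⟩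
    have h9 : A'.eval w := hv w (hconj Ds hw2)
    have h10 : A'.eval (fun n => v (Nat.unpair n).2) := (eval_congr hw1).1 h9
    rw [hA', rename, eval_subst] at h10
    simpa [eval] using h10
  -- the loop
  have b1 := h₃ z A M (by rw [hcopy]; exact hz) Ds (by rw [hcopy]; exact g2) (by
    intro D hD n hn
    have hD' := g3 D hD
    obtain ⟨C, _, rfl⟩ := List.mem_map.1 hD'
    rw [vars_rename, Finset.mem_image] at hn
    obtain ⟨v, _, rfl⟩ := hn
    simp) 0 (by
    rw [g1]
    nlinarith) (∅ ∪ {Y | Y ∈ [imp (conjL z []) (imp (conjL z Ds) A')]}) (by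
    right; simp [NL, hcopy])
  rw [hcopy] at b1
  have b2 := a5.cut b1
  simp only [add_zero, g1] at b2
  -- remove the trivial hypothesis
  have b3 := h₈ [var z] M hM1 (by
    intro X hX; simp at hX; subst hX; simpa [size] using hM1) ∅ (by simp)
  have hNk := NL_size z A k 1
  have b4 := h₅ [conjL z (NL z A 1 k), imp (var z) (var z), A'] M hM1 (by
    intro X hX; simp at hX; rcases hX with rfl | rfl | rfl
    · nlinarith
    · simp [size]; omega
    · omega) (∅ ∪ {Y | Y ∈ [imp (conjL z (NL z A 1 k)) (imp (conjL z []) A')] ++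
      [(imp (var 0) (var 0)).subst (asg [var z])]}) (by
    intro Y hY; simp only [List.mem_cons, List.not_mem_nil, or_false] at hY
    rcases hY with rfl | rfl
    · right; simp [subst, asg, conjL]
    · right; simp [subst, asg])
  have b5 := ((b2.append b3).cut b4).sub
    (G' := [imp (conjL z (NL z A (0 + 1) k)) (copies A 0)]) (by
      simp [subst, asg, copies, hcopy])
  have b6 := h₄ z A M hval k 0 (by nlinarith)
    (∅ ∪ {Y | Y ∈ [imp (conjL z (NL z A (0 + 1) k)) (copies A 0)]}) (by right; simp)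
  have b7 := b5.cut b6
  rw [zero_add] at b7
  have b8 := h₇ [imp (var z) (var z), copies A k] M hM1 (by
    intro X hX; simp at hX; rcases hX with rfl | rfl
    · simp [size]; omega
    · rw [copies_size]; nlinarith) (∅ ∪ {Y | Y ∈ [imp (conjL z []) (copies A k)] ++
      [(imp (var 0) (var 0)).subst (asg [var z])]}) (by
    intro Y hY; simp only [List.mem_cons, List.not_mem_nil, or_false] at hY
    rcases hY with rfl | rfl
    · right; simp [subst, asg, conjL]
    · right; simp [subst, asg])
  have b9 := ((b7.append b3).cut b8).sub (G' := [copies A k]) (by simp [subst, asg])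
  obtain ⟨D, e1, e2, e3⟩ := b9 [] PermProof.nil (by simp)
  rw [List.append_nil] at e1 e2
  obtain ⟨L', e4, e5⟩ := permProof_cut e1 (e2 (copies A k) (by simp))
  refine ⟨L', e4, e5.trans (e3.trans ?_)⟩
  -- the bound
  have hL0len : L0.length ≤ s := by rw [← hs0]; exact length_le_psize L0
  have hkk : k * k ≤ s ^ 3 := by nlinarith
  have hs23 : s ^ 2 ≤ s ^ 3 := Nat.pow_le_pow_right hs1 (by norm_num)
  have h1s3 : 1 ≤ s ^ 3 := h1s.trans hs23
  have t1 : Ds.length * (c₂ * M * Ds.length) ≤ c₂ * M * s ^ 3 := by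
    rw [g1]
    calc k * (c₂ * M * k) = c₂ * M * (k * k) := by ring
      _ ≤ _ := Nat.mul_le_mul_left _ hkk
  have t2 : c₁ * M * L0.length ≤ c₁ * M * s ^ 3 :=
    Nat.mul_le_mul_left _ (hL0len.trans (hss.trans hs23))
  have t0 : ∀ c, c * M ≤ c * M * s ^ 3 := fun c => Nat.le_mul_of_pos_right _ (by omega)
  have t3 : c₃ * M * (A.size + 1) * k ≤ c₃ * M * (2 * s ^ 3) := by
    rw [mul_assoc (c₃ * M)]
    apply Nat.mul_le_mul_left
    nlinarith
  have t4 : c₄ * M * (A.size * A.size) * k ≤ c₄ * M * s ^ 3 := by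
    rw [mul_assoc (c₄ * M)]
    apply Nat.mul_le_mul_left
    calc A.size * A.size * k ≤ s * s * s := Nat.mul_le_mul (Nat.mul_le_mul hsA hsA) hks
      _ = s ^ 3 := by ring
  have hMs : M * s ^ 3 = 100 * s ^ 5 := by rw [hMdef]; ring
  have u0 : ∀ c, c * M * s ^ 3 = 100 * c * s ^ 5 := fun c => by rw [mul_assoc, hMs]; ring
  have u3 : c₃ * M * (2 * s ^ 3) = 200 * c₃ * s ^ 5 := by
    calc c₃ * M * (2 * s ^ 3) = 2 * c₃ * (M * s ^ 3) := by ring
      _ = _ := by rw [hMs]; ring
  have v5 := t0 c₅
  have v7 := t0 c₇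
  have v8 := t0 c₈
  have v9 := t0 c₉
  rw [u0] at t1 t2 t4 v5 v7 v8 v9
  rw [u3] at t3
  rw [g1] at t1
  generalize s ^ 5 = S at *
  calc _ ≤ 100 * c₂ * S + 100 * c₁ * S + 100 * c₉ * S + 200 * c₃ * S + 100 * c₈ * S +
        100 * c₅ * S + 100 * c₄ * S + 100 * c₈ * S + 100 * c₇ * S := by omega
    _ ≤ _ := by nlinarith [Nat.zero_le (c₆ * S), Nat.zero_le (c₁ * S), Nat.zero_le (c₂ * S),
        Nat.zero_le (c₃ * S), Nat.zero_le (c₄ * S), Nat.zero_le (c₅ * S),
        Nat.zero_le (c₇ * S), Nat.zero_le (c₈ * S), Nat.zero_le (c₉ * S)]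

end Pool.Agent.H555R2.PF
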