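import Pool.Agent.H555R2.PF.Defs

set_option autoImplicit false

namespace Pool.Agent.H555R2.PF

open Fm

/-! ### size, variables, substitution -/

namespace Fm

theorem size_pos (A : Fm) : 1 ≤ A.size := by
  cases A <;> simp [size]

theorem subst_congr {σ τ : ℕ → Fm} : ∀ {A : Fm}, (∀ n ∈ A.vars, σ n = τ n) →
    A.subst σ = A.subst τ := by
  intro A
  induction A with
  | var n => intro h; exact h n (by simp [vars])
  | neg A ih => intro h; simp only [subst]; rw [ih h]
  | and A B iA iB =>
    intro h; simp only [subst]
    rw [iA fun n hn => h n (by simp [vars, hn]), iB fun n hn => h n (by simp [vars, hn])]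
  | or A B iA iB =>
    intro h; simp only [subst]
    rw [iA fun n hn => h n (by simp [vars, hn]), iB fun n hn => h n (by simp [vars, hn])]
  | imp A B iA iB =>
    intro h; simp only [subst]
    rw [iA fun n hn => h n (by simp [vars, hn]), iB fun n hn => h n (by simp [vars, hn])]

theorem subst_var (A : Fm) : A.subst var = A := by
  induction A with
  | var n => rfl
  | neg A ih => simp only [subst, ih]
  | and A B iA iB => simp only [subst, iA, iB]
  | or A B iA iB => simp only [subst, iA, iB]
  | imp A B iA iB => simp only [subst, iA, iB]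

theorem subst_subst (σ τ : ℕ → Fm) (A : Fm) :
    (A.subst σ).subst τ = A.subst (fun n => (σ n).subst τ) := by
  induction A with
  | var n => rfl
  | neg A ih => simp only [subst, ih]
  | and A B iA iB => simp only [subst, iA, iB]
  | or A B iA iB => simp only [subst, iA, iB]
  | imp A B iA iB => simp only [subst, iA, iB]

theorem rename_eq_self {f : ℕ → ℕ} {A : Fm} (h : ∀ n ∈ A.vars, f n = n) : A.rename f = A := by
  unfold rename
  rw [subst_congr (τ := var) (fun n hn => by rw [h n hn]), subst_var]

theorem size_subst_le {σ : ℕ → Fm} {M : ℕ} (hM : 1 ≤ M) : ∀ {A : Fm},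
    (∀ n ∈ A.vars, (σ n).size ≤ M) → (A.subst σ).size ≤ A.size * M := by
  intro A
  induction A with
  | var n => intro h; simpa [subst, size] using h n (by simp [vars])
  | neg A ih => intro h; simp only [subst, size]; have := ih h; nlinarith
  | and A B iA iB =>
    intro h; simp only [subst, size]
    have h1 := iA fun n hn => h n (by simp [vars, hn])
    have h2 := iB fun n hn => h n (by simp [vars, hn])
    nlinarith
  | or A B iA iB =>
    intro h; simp only [subst, size]
    have h1 := iA fun n hn => h n (by simp [vars, hn])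
    have h2 := iB fun n hn => h n (by simp [vars, hn])
    nlinarith
  | imp A B iA iB =>
    intro h; simp only [subst, size]
    have h1 := iA fun n hn => h n (by simp [vars, hn])
    have h2 := iB fun n hn => h n (by simp [vars, hn])
    nlinarith

theorem size_rename (f : ℕ → ℕ) (A : Fm) : (A.rename f).size = A.size := by
  unfold rename
  induction A with
  | var n => rfl
  | neg A ih => simp only [subst, size, ih]
  | and A B iA iB => simp only [subst, size, iA, iB]
  | or A B iA iB => simp only [subst, size, iA, iB]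
  | imp A B iA iB => simp only [subst, size, iA, iB]

theorem size_le_subst {σ : ℕ → Fm} {n : ℕ} : ∀ {A : Fm}, n ∈ A.vars →
    (σ n).size ≤ (A.subst σ).size := by
  intro A
  induction A with
  | var m => intro h; simp only [vars, Finset.mem_singleton] at h; subst h; exact le_rfl
  | neg A ih => intro h; simp only [subst, size]; have := ih h; omega
  | and A B iA iB =>
    intro h; simp only [vars, Finset.mem_union] at h; simp only [subst, size]
    rcases h with h | h
    · have := iA h; omega
    · have := iB h; omega
  | or A B iA iB =>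
    intro h; simp only [vars, Finset.mem_union] at h; simp only [subst, size]
    rcases h with h | h
    · have := iA h; omega
    · have := iB h; omega
  | imp A B iA iB =>
    intro h; simp only [vars, Finset.mem_union] at h; simp only [subst, size]
    rcases h with h | h
    · have := iA h; omega
    · have := iB h; omega

theorem vars_card_le (A : Fm) : A.vars.card ≤ A.size := by
  induction A with
  | var n => simp [vars, size]
  | neg A ih => simp only [vars, size]; omega
  | and A B iA iB =>
    simp only [vars, size]; have := Finset.card_union_le A.vars B.vars; omega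
  | or A B iA iB =>
    simp only [vars, size]; have := Finset.card_union_le A.vars B.vars; omega
  | imp A B iA iB =>
    simp only [vars, size]; have := Finset.card_union_le A.vars B.vars; omega

theorem vars_nonempty (A : Fm) : A.vars.Nonempty := by
  induction A with
  | var n => simp [vars]
  | neg A ih => exact ih
  | and A B iA iB => exact iA.mono (by simp [vars])
  | or A B iA iB => exact iA.mono (by simp [vars])
  | imp A B iA iB => exact iA.mono (by simp [vars])

theorem vars_rename (f : ℕ → ℕ) (A : Fm) : (A.rename f).vars = A.vars.image f := by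
  unfold rename
  induction A with
  | var n => simp [subst, vars]
  | neg A ih => simp only [subst, vars, ih]
  | and A B iA iB => simp only [subst, vars, iA, iB, Finset.image_union]
  | or A B iA iB => simp only [subst, vars, iA, iB, Finset.image_union]
  | imp A B iA iB => simp only [subst, vars, iA, iB, Finset.image_union]

theorem eval_subst (v : ℕ → Prop) (σ : ℕ → Fm) (A : Fm) :
    (A.subst σ).eval v ↔ A.eval (fun n => (σ n).eval v) := by
  induction A with
  | var n => rfl
  | neg A ih => simp only [subst, eval, ih]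
  | and A B iA iB => simp only [subst, eval, iA, iB]
  | or A B iA iB => simp only [subst, eval, iA, iB]
  | imp A B iA iB => simp only [subst, eval, iA, iB]

theorem eval_congr {v w : ℕ → Prop} : ∀ {A : Fm}, (∀ n ∈ A.vars, v n ↔ w n) →
    (A.eval v ↔ A.eval w) := by
  intro A
  induction A with
  | var n => intro h; exact h n (by simp [vars])
  | neg A ih => intro h; simp only [eval]; rw [ih h]
  | and A B iA iB =>
    intro h; simp only [eval]
    rw [iA fun n hn => h n (by simp [vars, hn]), iB fun n hn => h n (by simp [vars, hn])]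
  | or A B iA iB =>
    intro h; simp only [eval]
    rw [iA fun n hn => h n (by simp [vars, hn]), iB fun n hn => h n (by simp [vars, hn])]
  | imp A B iA iB =>
    intro h; simp only [eval]
    rw [iA fun n hn => h n (by simp [vars, hn]), iB fun n hn => h n (by simp [vars, hn])]

end Fm

theorem psize_append (L M : List Fm) : psize (L ++ M) = psize L + psize M := by
  simp [psize]

theorem psize_cons (B : Fm) (L : List Fm) : psize (B :: L) = B.size + psize L := by
  simp [psize]

theorem size_le_psize {L : List Fm} {B : Fm} (h : B ∈ L) : B.size ≤ psize L := by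
  induction L with
  | nil => simp at h
  | cons C L ih =>
    rw [psize_cons]
    rcases List.mem_cons.1 h with rfl | h
    · omega
    · have := ih h; omega

theorem length_le_psize (L : List Fm) : L.length ≤ psize L := by
  induction L with
  | nil => simp
  | cons C L ih => rw [psize_cons]; have := Fm.size_pos C; simp only [List.length_cons]; omega

/-! ### extending proofs -/

/-- From every proof containing the formulas of `Γ` one can go on to a proof containing the
formulas of `G`, adding at most `m` symbols. -/
def Can (F : List Rule) (Γ : Set Fm) (G : List Fm) (m : ℕ) : Prop :=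
  ∀ L, PermProof F L → (∀ A ∈ Γ, A ∈ L) →
    ∃ D, PermProof F (D ++ L) ∧ (∀ B ∈ G, B ∈ D ++ L) ∧ psize D ≤ m

namespace Can

variable {F : List Rule} {Γ Γ' : Set Fm} {G G' : List Fm} {m m' : ℕ}

theorem mono (h : Can F Γ G m) (hΓ : Γ ⊆ Γ') (hm : m ≤ m') : Can F Γ' G m' := by
  intro L hL hΓL
  obtain ⟨D, h1, h2, h3⟩ := h L hL fun A hA => hΓL A (hΓ hA)
  exact ⟨D, h1, h2, h3.trans hm⟩

theorem sub (h : Can F Γ G m) (hG : ∀ B ∈ G', B ∈ G) : Can F Γ G' m := by
  intro L hL hΓL
  obtain ⟨D, h1, h2, h3⟩ := h L hL hΓL
  exact ⟨D, h1, fun B hB => h2 B (hG B hB), h3⟩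

theorem nil : Can F Γ [] 0 := fun L hL _ => ⟨[], hL, by simp, by simp [psize]⟩

theorem hyp {B : Fm} (h : B ∈ Γ) : Can F Γ [B] 0 := fun L hL hΓ =>
  ⟨[], hL, by simpa using hΓ B h, by simp [psize]⟩

/-- cut -/
theorem cut (h : Can F Γ G m) (h' : Can F (Γ ∪ {B | B ∈ G}) G' m') : Can F Γ G' (m + m') := by
  intro L hL hΓL
  obtain ⟨D, h1, h2, h3⟩ := h L hL hΓL
  obtain ⟨D', h1', h2', h3'⟩ := h' (D ++ L) h1 (by
    rintro A (hA | hA)
    · exact List.mem_append_right _ (hΓL A hA)
    · exact h2 A hA)
  refine ⟨D' ++ D, by rwa [List.append_assoc], ?_, ?_⟩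
  · intro B hB
    rw [List.append_assoc]
    exact h2' B hB
  · rw [psize_append]; omega

theorem append (h : Can F Γ G m) (h' : Can F Γ G' m') : Can F Γ (G ++ G') (m + m') := by
  intro L hL hΓL
  obtain ⟨D, h1, h2, h3⟩ := h L hL hΓL
  obtain ⟨D', h1', h2', h3'⟩ := h' (D ++ L) h1 fun A hA => List.mem_append_right _ (hΓL A hA)
  refine ⟨D' ++ D, by rwa [List.append_assoc], ?_, ?_⟩
  · intro B hB
    rw [List.append_assoc]
    rcases List.mem_append.1 hB with hB | hB
    · exact List.mem_append_right _ (h2 B hB)
    · exact h2' B hB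
  · rw [psize_append]; omega

/-- one application of the permutation rule -/
theorem perm {A : Fm} (hA : A ∈ Γ) (π : Equiv.Perm ℕ) (hπ : ∀ n, n ∉ A.vars → π n = n) :
    Can F Γ [A.rename π] A.size := by
  intro L hL hΓL
  refine ⟨[A.rename π], PermProof.perm hL ⟨A, hΓL A hA, π, hπ, rfl⟩, by simp, ?_⟩
  simp [psize, Fm.size_rename]

/-- a family of goals -/
theorem many {ι : Type} (f : ι → Fm) (k : ℕ) : ∀ (l : List ι), (∀ i ∈ l, Can F Γ [f i] k) →
    Can F Γ (l.map f) (l.length * k) := by
  intro l
  induction l with
  | nil => intro _; simpa using (nil : Can F Γ [] 0)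
  | cons i l ih =>
    intro h
    have h1 := h i (by simp)
    have h2 := ih fun j hj => h j (by simp [hj])
    refine ((h1.append h2).sub (by simp)).mono subset_rfl ?_
    simp only [List.length_cons]
    nlinarith

end Can

theorem FregeStep.mono {F : List Rule} {L L' : List Fm} {B : Fm} (h : FregeStep F L B)
    (hL : ∀ A ∈ L, A ∈ L') : FregeStep F L' B := by
  obtain ⟨r, hr, σ, h1, h2⟩ := h
  exact ⟨r, hr, σ, h1, fun p hp => hL _ (h2 p hp)⟩

/-- instances of a derivation -/
theorem derivation_inst {F : List Rule} {Γ₀ : List Fm} {Lf : List Fm}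
    (hd : Derivation F Γ₀ Lf) {σ : ℕ → Fm} {M : ℕ} (hM : 1 ≤ M) (hσ : ∀ n, (σ n).size ≤ M)
    {Γ : Set Fm} (hΓ : ∀ A ∈ Γ₀, A.subst σ ∈ Γ) :
    Can F Γ (Lf.map (Fm.subst σ)) (psize Lf * M) := by
  induction hd with
  | nil => simpa using (Can.nil : Can F Γ [] 0).mono subset_rfl (Nat.zero_le _)
  | @hyp L B hd hB ih =>
    have h1 : Can F Γ [B.subst σ] 0 := Can.hyp (hΓ B hB)
    refine ((h1.append ih).sub (by simp)).mono subset_rfl ?_
    rw [psize_cons]
    nlinarith [Nat.zero_le (B.size * M)]
  | @rule L B hd hB ih =>
    obtain ⟨r, hr, τ, h1, h2⟩ := hB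
    intro L' hL' hΓL'
    obtain ⟨D, h3, h4, h5⟩ := ih L' hL' hΓL'
    have h6 : FregeStep F (D ++ L') (B.subst σ) := by
      refine ⟨r, hr, fun n => (τ n).subst σ, by rw [h1, Fm.subst_subst], ?_⟩
      intro p hp
      rw [← Fm.subst_subst]
      exact h4 _ (List.mem_map.2 ⟨_, h2 p hp, rfl⟩)
    refine ⟨B.subst σ :: D, PermProof.rule h3 h6, ?_, ?_⟩
    · intro C hC
      simp only [List.map_cons, List.mem_cons] at hC
      rcases hC with rfl | hC
      · simp
      · exact List.mem_cons_of_mem _ (h4 C hC)
    · rw [psize_cons, psize_cons]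
      have := Fm.size_subst_le (σ := σ) hM (A := B) (fun n _ => hσ n)
      nlinarith

/-- derived schematic rules -/
theorem schema {F : List Rule} (hF : IsFrege F) (Γ₀ : List Fm) (B₀ : Fm) (h : Entails Γ₀ B₀) :
    ∃ c : ℕ, ∀ (σ : ℕ → Fm) (M : ℕ), 1 ≤ M → (∀ n, (σ n).size ≤ M) → ∀ Γ : Set Fm,
      (∀ A ∈ Γ₀, A.subst σ ∈ Γ) → Can F Γ [B₀.subst σ] (c * M) := by
  obtain ⟨L, hL⟩ := hF.2 Γ₀ B₀ h
  refine ⟨psize (B₀ :: L), fun σ M hM hσ Γ hΓ => ?_⟩
  exact (derivation_inst hL hM hσ hΓ).sub (by simp)

/-- The substitution given by a list. -/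
def asg (l : List Fm) : ℕ → Fm := fun n => l.getD n (var 0)

theorem asg_size {l : List Fm} {M : ℕ} (hM : 1 ≤ M) (h : ∀ X ∈ l, X.size ≤ M) (n : ℕ) :
    (asg l n).size ≤ M := by
  unfold asg
  rcases lt_or_ge n l.length with hn | hn
  · rw [List.getD_eq_getElem _ _ hn]
    exact h _ (List.getElem_mem _)
  · rw [List.getD_eq_default _ _ hn]
    simpa [Fm.size] using hM

end Pool.Agent.H555R2.PF
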