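import Pool.Agent.H555R2.PF.Base

set_option autoImplicit false

namespace Pool.Agent.H555R2.PF

open Fm

variable {F : List Rule}

/-! ### schematic rules given by lists -/

theorem schemaL (hF : IsFrege F) (Γ₀ : List Fm) (B₀ : Fm) (h : Entails Γ₀ B₀) :
    ∃ c : ℕ, ∀ (l : List Fm) (M : ℕ), 1 ≤ M → (∀ X ∈ l, X.size ≤ M) → ∀ Γ : Set Fm,
      (∀ A ∈ Γ₀, A.subst (asg l) ∈ Γ) → Can F Γ [B₀.subst (asg l)] (c * M) := by
  obtain ⟨c, hc⟩ := schema hF Γ₀ B₀ h
  exact ⟨c, fun l M hM hl Γ hΓ => hc (asg l) M hM (asg_size hM hl) Γ hΓ⟩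

/-- conjunction of a list; `z` is any variable -/
def conjL (z : ℕ) : List Fm → Fm
  | [] => imp (var z) (var z)
  | D :: Ds => and D (conjL z Ds)

/-- disjunction of a list; `z` is any variable -/
def disjL (z : ℕ) : List Fm → Fm
  | [] => neg (imp (var z) (var z))
  | D :: Ds => or D (disjL z Ds)

theorem conjL_size (z : ℕ) (Ds : List Fm) : (conjL z Ds).size = psize Ds + Ds.length + 3 := by
  induction Ds with
  | nil => simp [conjL, size, psize]
  | cons D Ds ih => simp only [conjL, size, psize_cons, ih, List.length_cons]; omega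

theorem disjL_size (z : ℕ) (Ds : List Fm) : (disjL z Ds).size = psize Ds + Ds.length + 4 := by
  induction Ds with
  | nil => simp [disjL, size, psize]
  | cons D Ds ih => simp only [disjL, size, psize_cons, ih, List.length_cons]; omega

theorem conjL_vars {z : ℕ} {Ds : List Fm} {n : ℕ} (h : n ∈ (conjL z Ds).vars) :
    n = z ∨ ∃ D ∈ Ds, n ∈ D.vars := by
  induction Ds with
  | nil => simp [conjL, vars] at h; exact Or.inl h
  | cons D Ds ih =>
    simp only [conjL, vars, Finset.mem_union] at h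
    rcases h with h | h
    · exact Or.inr ⟨D, by simp, h⟩
    · rcases ih h with h | ⟨C, hC, h⟩
      · exact Or.inl h
      · exact Or.inr ⟨C, by simp [hC], h⟩

theorem disjL_vars {z : ℕ} {Ds : List Fm} {n : ℕ} (h : n ∈ (disjL z Ds).vars) :
    n = z ∨ ∃ D ∈ Ds, n ∈ D.vars := by
  induction Ds with
  | nil => simp [disjL, vars] at h; exact Or.inl h
  | cons D Ds ih =>
    simp only [disjL, vars, Finset.mem_union] at h
    rcases h with h | h
    · exact Or.inr ⟨D, by simp, h⟩
    · rcases ih h with h | ⟨C, hC, h⟩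
      · exact Or.inl h
      · exact Or.inr ⟨C, by simp [hC], h⟩

/-- a member of a conjunction -/
theorem conj_mem (hF : IsFrege F) : ∃ c : ℕ, ∀ (z : ℕ) (Ds : List Fm) (M : ℕ), 1 ≤ M →
    (conjL z Ds).size ≤ M → ∀ D ∈ Ds, ∀ Γ : Set Fm,
      Can F Γ [imp (conjL z Ds) D] (c * M * Ds.length) := by
  obtain ⟨c₁, h₁⟩ := schemaL hF [] (imp (and (var 0) (var 1)) (var 0)) (by
    intro v _; simp [eval]; tauto)
  obtain ⟨c₂, h₂⟩ := schemaL hF [imp (var 1) (var 2)] (imp (and (var 0) (var 1)) (var 2)) (by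
    intro v h; simp [eval] at h ⊢; tauto)
  refine ⟨c₁ + c₂, fun z Ds M hM => ?_⟩
  induction Ds with
  | nil => intro _ D hD; simp at hD
  | cons D Ds ih =>
    intro hs C hC Γ
    have hs' : D.size ≤ M ∧ (conjL z Ds).size ≤ M := by
      simp only [conjL, size] at hs; omega
    rcases List.mem_cons.1 hC with rfl | hC
    · refine (h₁ [C, conjL z Ds] M hM ?_ Γ (by simp)).mono subset_rfl ?_
      · intro X hX; simp at hX; rcases hX with rfl | rfl; exacts [hs'.1, hs'.2]
      · simp only [List.length_cons]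
        calc c₁ * M ≤ (c₁ + c₂) * M := Nat.mul_le_mul_right _ (by omega)
          _ ≤ (c₁ + c₂) * M * (Ds.length + 1) := Nat.le_mul_of_pos_right _ (Nat.succ_pos _)
    · have h3 := ih hs'.2 C hC Γ
      have hCs : C.size ≤ M := by
        have := size_le_psize hC
        have h4 := hs'.2
        rw [conjL_size] at h4; omega
      have h5 := h₂ [D, conjL z Ds, C] M hM (by
        intro X hX; simp at hX; rcases hX with rfl | rfl | rfl
        exacts [hs'.1, hs'.2, hCs]) (Γ ∪ {B | B ∈ [imp (conjL z Ds) C]}) (by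
          intro A hA
          simp only [List.mem_singleton] at hA
          subst hA
          right; simp [subst, asg])
      refine (h3.cut h5).mono subset_rfl ?_
      simp only [List.length_cons]; nlinarith

/-! ### the deduction theorem -/

/-- the variables of a rule -/
def Rule.rv (r : Rule) : Finset ℕ := r.concl.vars ∪ r.prem.toFinset.biUnion Fm.vars

theorem rule_ded (hF : IsFrege F) (r : Rule) (hr : r ∈ F) : ∃ c : ℕ, ∀ (E : Fm) (σ : ℕ → Fm)
    (M : ℕ), 1 ≤ M → E.size ≤ M → (∀ n ∈ r.rv, (σ n).size ≤ M) → ∀ Γ : Set Fm,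
      (∀ p ∈ r.prem, imp E (p.subst σ) ∈ Γ) → Can F Γ [imp E (r.concl.subst σ)] (c * M) := by
  obtain ⟨R, hR⟩ := Infinite.exists_notMem_finset r.rv
  obtain ⟨c, hc⟩ := schema hF (r.prem.map (imp (var R))) (imp (var R) r.concl) (by
    intro v h
    simp only [eval]
    intro hv
    apply hF.1 r hr v
    intro p hp
    have := h (imp (var R) p) (List.mem_map.2 ⟨p, hp, rfl⟩)
    exact this hv)
  refine ⟨c, fun E σ M hM hE hσ Γ hΓ => ?_⟩
  let σ' : ℕ → Fm := fun n => if n = R then E else if n ∈ r.rv then σ n else var 0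
  have hσ' : ∀ n, (σ' n).size ≤ M := by
    intro n
    simp only [σ']
    split_ifs with h1 h2
    · exact hE
    · exact hσ n h2
    · simpa [size] using hM
  have hsub : ∀ A : Fm, A.vars ⊆ r.rv → A.subst σ' = A.subst σ := by
    intro A hA
    apply subst_congr
    intro n hn
    have h1 : n ∈ r.rv := hA hn
    have h2 : n ≠ R := fun h => hR (h ▸ h1)
    simp [σ', h1, h2]
  have hRR : (var R).subst σ' = E := by simp [subst, σ']
  have h1 := hc σ' M hM hσ' Γ (by
    intro A hA
    obtain ⟨p, hp, rfl⟩ := List.mem_map.1 hA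
    simp only [subst]
    rw [show σ' R = E from hRR, hsub p (by
      intro n hn
      simp only [Rule.rv, Finset.mem_union, Finset.mem_biUnion, List.mem_toFinset]
      exact Or.inr ⟨p, hp, hn⟩)]
    exact hΓ p hp)
  simp only [subst] at h1
  rw [show σ' R = E from hRR, hsub r.concl (by
    intro n hn; simp only [Rule.rv, Finset.mem_union]; exact Or.inl hn)] at h1
  exact h1

theorem uniform {α : Type} (P : α → ℕ → Prop) (hP : ∀ a c c', c ≤ c' → P a c → P a c') :
    ∀ l : List α, (∀ a ∈ l, ∃ c, P a c) → ∃ c, ∀ a ∈ l, P a c := by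
  intro l
  induction l with
  | nil => intro _; exact ⟨0, by simp⟩
  | cons a l ih =>
    intro h
    obtain ⟨c₁, h₁⟩ := h a (by simp)
    obtain ⟨c₂, h₂⟩ := ih fun b hb => h b (by simp [hb])
    refine ⟨c₁ + c₂, ?_⟩
    intro b hb
    rcases List.mem_cons.1 hb with rfl | hb
    · exact hP _ _ _ (by omega) h₁
    · exact hP _ _ _ (by omega) (h₂ b hb)

/-- the extension axioms of a proof, the last one first -/
def WFExt (A : Fm) : List Fm → Prop
  | [] => True
  | D :: Ds => (∃ q φ, D = iff (var q) φ ∧ q ∉ φ.vars ∧ q ∉ A.vars ∧ ∀ C ∈ Ds, q ∉ C.vars) ∧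
      WFExt A Ds

theorem deduction (hF : IsFrege F) : ∃ c : ℕ, ∀ (A : Fm) (k : ℕ) (L : List Fm),
    EFProof F A k L → ∃ Ds : List Fm, Ds.length = k ∧ WFExt A Ds ∧ (∀ D ∈ Ds, D ∈ L) ∧
      psize Ds ≤ psize L ∧
      ∀ (E : Fm) (M : ℕ), 1 ≤ M → E.size ≤ M → (∀ B ∈ L, B.size ≤ M) → ∀ Γ : Set Fm,
        (∀ D ∈ Ds, imp E D ∈ Γ) → Can F Γ (L.map (imp E)) (c * M * L.length) := by
  obtain ⟨c, hc⟩ := uniform (fun (r : Rule) c => r ∈ F → ∀ (E : Fm) (σ : ℕ → Fm)
    (M : ℕ), 1 ≤ M → E.size ≤ M → (∀ n ∈ r.rv, (σ n).size ≤ M) → ∀ Γ : Set Fm,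
      (∀ p ∈ r.prem, imp E (p.subst σ) ∈ Γ) → Can F Γ [imp E (r.concl.subst σ)] (c * M))
    (by
      intro r c c' hcc h hr E σ M h1 h2 h3 Γ h4
      exact (h hr E σ M h1 h2 h3 Γ h4).mono subset_rfl (Nat.mul_le_mul_right _ hcc)) F (by
      intro r hr
      obtain ⟨c, hc⟩ := rule_ded hF r hr
      exact ⟨c, fun _ => hc⟩)
  refine ⟨c, fun A k L hL => ?_⟩
  induction hL with
  | nil =>
    refine ⟨[], rfl, trivial, by simp, by simp, ?_⟩
    intro E M _ _ _ Γ _
    simpa using (Can.nil : Can F Γ [] 0)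
  | @rule k L B hL hB ih =>
    obtain ⟨Ds, h1, h2, h3, h3', h4⟩ := ih
    refine ⟨Ds, h1, h2, fun D hD => List.mem_cons_of_mem _ (h3 D hD), by
      rw [psize_cons]; omega, ?_⟩
    intro E M hM hE hsz Γ hΓ
    have h5 := h4 E M hM hE (fun B hB => hsz B (List.mem_cons_of_mem _ hB)) Γ hΓ
    obtain ⟨r, hr, σ, hB1, hB2⟩ := hB
    have h6 := hc r hr hr E σ M hM hE (by
      intro n hn
      simp only [Rule.rv, Finset.mem_union, Finset.mem_biUnion, List.mem_toFinset] at hn
      rcases hn with hn | ⟨p, hp, hn⟩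
      · refine (size_le_subst hn).trans ?_
        rw [← hB1]; exact hsz B (by simp)
      · refine (size_le_subst hn).trans ?_
        exact hsz _ (List.mem_cons_of_mem _ (hB2 p hp))) (Γ ∪ {B | B ∈ L.map (imp E)}) (by
      intro p hp
      right
      exact List.mem_map.2 ⟨_, hB2 p hp, rfl⟩)
    rw [← hB1] at h6
    intro L' hL' hΓL'
    obtain ⟨D, g1, g2, g3⟩ := h5 L' hL' hΓL'
    obtain ⟨D', g1', g2', g3'⟩ := h6 (D ++ L') g1 (by
      rintro C (hC | hC)
      · exact List.mem_append_right _ (hΓL' C hC)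
      · exact g2 C hC)
    refine ⟨D' ++ D, by rwa [List.append_assoc], ?_, ?_⟩
    · intro C hC
      rw [List.append_assoc]
      simp only [List.map_cons, List.mem_cons] at hC
      rcases hC with rfl | hC
      · exact g2' _ (by simp)
      · exact List.mem_append_right _ (g2 C hC)
    · rw [psize_append, List.length_cons]; nlinarith
  | @ext k L q φ hL hq1 hq2 hq3 ih =>
    obtain ⟨Ds, h1, h2, h3, h3', h4⟩ := ih
    refine ⟨iff (var q) φ :: Ds, by simp [h1], ⟨⟨q, φ, rfl, hq1, hq3, fun C hC => hq2 C (h3 C hC)⟩,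
      h2⟩, ?_, ?_, ?_⟩
    · intro D hD
      rcases List.mem_cons.1 hD with rfl | hD
      · simp
      · exact List.mem_cons_of_mem _ (h3 D hD)
    · rw [psize_cons, psize_cons]; omega
    · intro E M hM hE hsz Γ hΓ
      have h5 := h4 E M hM hE (fun B hB => hsz B (List.mem_cons_of_mem _ hB)) Γ
        (fun D hD => hΓ D (List.mem_cons_of_mem _ hD))
      have h6 : Can F Γ [imp E (iff (var q) φ)] 0 := Can.hyp (hΓ _ (by simp))
      refine ((h6.append h5).sub (by simp)).mono subset_rfl ?_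
      rw [List.length_cons]; nlinarith

/-! ### soundness -/

theorem permProof_sound (hF : IsFrege F) {L : List Fm} (hL : PermProof F L) :
    ∀ A ∈ L, ∀ v, A.eval v := by
  induction hL with
  | nil => simp
  | @rule L B hL hB ih =>
    intro A hA v
    rcases List.mem_cons.1 hA with rfl | hA
    · obtain ⟨r, hr, σ, h1, h2⟩ := hB
      rw [h1, eval_subst]
      apply hF.1 r hr
      intro p hp
      rw [← eval_subst]
      exact ih _ (h2 p hp) v
    · exact ih A hA v
  | @perm L B hL hB ih =>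
    intro A hA v
    rcases List.mem_cons.1 hA with rfl | hA
    · obtain ⟨C, hC, π, -, h2⟩ := hB
      rw [h2, rename, eval_subst]
      exact ih C hC _
    · exact ih A hA v

theorem exists_sat {A : Fm} : ∀ {Ds : List Fm}, WFExt A Ds → ∀ v : ℕ → Prop,
    ∃ v' : ℕ → Prop, (∀ n ∈ A.vars, v' n ↔ v n) ∧ ∀ D ∈ Ds, D.eval v' := by
  classical
  intro Ds
  induction Ds with
  | nil => intro _ v; exact ⟨v, fun _ _ => Iff.rfl, by simp⟩
  | cons D Ds ih =>
    rintro ⟨⟨q, φ, rfl, h1, h2, h3⟩, h4⟩ v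
    obtain ⟨v', h5, h6⟩ := ih h4 v
    refine ⟨Function.update v' q (φ.eval v'), ?_, ?_⟩
    · intro n hn
      rw [Function.update_of_ne (fun h : n = q => h2 (h ▸ hn))]
      exact h5 n hn
    · intro C hC
      rcases List.mem_cons.1 hC with rfl | hC
      · have : φ.eval (Function.update v' q (φ.eval v')) ↔ φ.eval v' := by
          apply eval_congr
          intro n hn
          rw [Function.update_of_ne (fun h : n = q => h1 (h ▸ hn))]
        simp only [Fm.iff, eval, Function.update_self]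
        rw [this]
        exact ⟨id, id⟩
      · have : C.eval (Function.update v' q (φ.eval v')) ↔ C.eval v' := by
          apply eval_congr
          intro n hn
          rw [Function.update_of_ne (fun h : n = q => h3 C hC (h ▸ hn))]
        rw [this]
        exact h6 C hC

end Pool.Agent.H555R2.PF
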