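import Mathlib

/-!
# Frege systems, the permutation rule and extended Frege: definitions

Propositional formulas in the basis `¬, ∧, ∨, →`; Frege systems (finite sets of sound schematic
rules which are implicationally complete); proofs in Frege + permutation and in extended Frege.
Proofs are lists of formulas, the last line being the head of the list.
-/

set_option autoImplicit false

namespace Pool.Agent.H555R2.PF

/-- Propositional formulas in the variables `p₀, p₁, …`. -/
inductive Fm : Type
  | var (n : ℕ) : Fm
  | neg (A : Fm) : Fm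
  | and (A B : Fm) : Fm
  | or (A B : Fm) : Fm
  | imp (A B : Fm) : Fm
  deriving DecidableEq

namespace Fm

/-- Number of symbols of a formula. -/
def size : Fm → ℕ
  | var _ => 1
  | neg A => A.size + 1
  | and A B => A.size + B.size + 1
  | or A B => A.size + B.size + 1
  | imp A B => A.size + B.size + 1

/-- The variables of a formula. -/
def vars : Fm → Finset ℕ
  | var n => {n}
  | neg A => A.vars
  | and A B => A.vars ∪ B.vars
  | or A B => A.vars ∪ B.vars
  | imp A B => A.vars ∪ B.vars

/-- Simultaneous substitution. -/
def subst (σ : ℕ → Fm) : Fm → Fm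
  | var n => σ n
  | neg A => neg (A.subst σ)
  | and A B => and (A.subst σ) (B.subst σ)
  | or A B => or (A.subst σ) (B.subst σ)
  | imp A B => imp (A.subst σ) (B.subst σ)

/-- Simultaneous renaming of the variables. -/
def rename (f : ℕ → ℕ) (A : Fm) : Fm := A.subst (fun n => var (f n))

/-- Truth value of a formula under an assignment. -/
def eval (v : ℕ → Prop) : Fm → Prop
  | var n => v n
  | neg A => ¬ A.eval v
  | and A B => A.eval v ∧ B.eval v
  | or A B => A.eval v ∨ B.eval v
  | imp A B => A.eval v → B.eval v

/-- `A ↔ B`, as an abbreviation for `(A → B) ∧ (B → A)`. -/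
def iff (A B : Fm) : Fm := and (imp A B) (imp B A)

end Fm

open Fm

/-- `Γ ⊨ B` -/
def Entails (Γ : List Fm) (B : Fm) : Prop :=
  ∀ v : ℕ → Prop, (∀ A ∈ Γ, A.eval v) → B.eval v

/-- A schematic inference rule. -/
structure Rule where
  /-- the premises -/
  prem : List Fm
  /-- the conclusion -/
  concl : Fm

/-- `B` is inferred from formulas in `L` by (a substitution instance of) a rule of `F`. -/
def FregeStep (F : List Rule) (L : List Fm) (B : Fm) : Prop :=
  ∃ r ∈ F, ∃ σ : ℕ → Fm, B = r.concl.subst σ ∧ ∀ p ∈ r.prem, p.subst σ ∈ L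

/-- Derivations from the hypotheses `Γ`; the head of the list is the last line. -/
inductive Derivation (F : List Rule) (Γ : List Fm) : List Fm → Prop
  | nil : Derivation F Γ []
  | hyp {L : List Fm} {B : Fm} : Derivation F Γ L → B ∈ Γ → Derivation F Γ (B :: L)
  | rule {L : List Fm} {B : Fm} : Derivation F Γ L → FregeStep F L B → Derivation F Γ (B :: L)

/-- A Frege system: a finite set of sound schematic rules, implicationally complete. -/
def IsFrege (F : List Rule) : Prop :=
  (∀ r ∈ F, Entails r.prem r.concl) ∧
    ∀ (Γ : List Fm) (B : Fm), Entails Γ B → ∃ L, Derivation F Γ (B :: L)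

/-- The permutation rule: from `A` infer the result of applying to `A` a permutation of the set
of the variables of `A`. -/
def PermStep (L : List Fm) (B : Fm) : Prop :=
  ∃ A ∈ L, ∃ π : Equiv.Perm ℕ, (∀ n, n ∉ A.vars → π n = n) ∧ B = A.rename π

/-- Proofs in Frege + permutation. -/
inductive PermProof (F : List Rule) : List Fm → Prop
  | nil : PermProof F []
  | rule {L : List Fm} {B : Fm} : PermProof F L → FregeStep F L B → PermProof F (B :: L)
  | perm {L : List Fm} {B : Fm} : PermProof F L → PermStep L B → PermProof F (B :: L)

/-- `EFProof F A k L`: `L` is the list of lines of (an initial segment of) an extended Frege proof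
of `A` in which the extension rule has been used `k` times. -/
inductive EFProof (F : List Rule) (A : Fm) : ℕ → List Fm → Prop
  | nil : EFProof F A 0 []
  | rule {k : ℕ} {L : List Fm} {B : Fm} :
      EFProof F A k L → FregeStep F L B → EFProof F A k (B :: L)
  | ext {k : ℕ} {L : List Fm} {q : ℕ} {φ : Fm} : EFProof F A k L → q ∉ φ.vars →
      (∀ C ∈ L, q ∉ C.vars) → q ∉ A.vars → EFProof F A (k + 1) (iff (var q) φ :: L)

/-- The size of a proof: the total number of symbols of its lines. -/
def psize (L : List Fm) : ℕ := (L.map Fm.size).sum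

/-- The `i`-th copy of `A`: the variable `v` is replaced by a new variable `⟨i, v⟩`. -/
def copy (i : ℕ) (A : Fm) : Fm := A.rename (fun v => Nat.pair i v)

/-- The disjunction `A⁽ᵏ⁾ ∨ (A⁽ᵏ⁻¹⁾ ∨ … (A⁽¹⁾ ∨ A⁽⁰⁾))` of `k + 1` copies of `A` in pairwise
disjoint sets of variables. -/
def copies (A : Fm) : ℕ → Fm
  | 0 => copy 0 A
  | k + 1 => or (copy (k + 1) A) (copies A k)

end Pool.Agent.H555R2.PF
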