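import Pool.Agent.H555R2.PF.Loop

set_option autoImplicit false

namespace Pool.Agent.H555R2.PF

open Fm

variable {F : List Rule}

/-! ### blocks -/

/-- the variables of the `i`-th copy -/
noncomputable def bl (i : ℕ) (A : Fm) : List ℕ := A.vars.toList.map (Nat.pair i)

theorem mem_bl {i : ℕ} {A : Fm} {b : ℕ} : b ∈ bl i A ↔ ∃ v ∈ A.vars, Nat.pair i v = b := by
  simp [bl]

theorem bl_length (i : ℕ) (A : Fm) : (bl i A).length ≤ A.size := by
  simp [bl]
  exact vars_card_le A

theorem copy_vars {i : ℕ} {A : Fm} {b : ℕ} (h : b ∈ (copy i A).vars) : b ∈ bl i A := by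
  rw [copy, vars_rename, Finset.mem_image] at h
  exact mem_bl.2 h

theorem copy_type {i : ℕ} {A : Fm} {b : ℕ} (h : b ∈ bl i A) : (Nat.unpair b).1 = i := by
  obtain ⟨v, _, rfl⟩ := mem_bl.1 h
  simp

theorem psize_var (B : List ℕ) : psize (B.map var) = B.length := by
  induction B with
  | nil => simp [psize]
  | cons b B ih => rw [List.map_cons, psize_cons, ih, List.length_cons]; simp [size]; omega

theorem psize_negvar (B : List ℕ) : psize (B.map (fun b => neg (var b))) = 2 * B.length := by
  induction B with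
  | nil => simp [psize]
  | cons b B ih => rw [List.map_cons, psize_cons, ih, List.length_cons]; simp [size]; omega

theorem NCF_size (z : ℕ) (B : List ℕ) : (NCF z B).size = 5 * B.length + 9 := by
  simp only [NCF, size, disjL_size, psize_var, psize_negvar, List.length_map]
  omega

theorem NCF_vars {z : ℕ} {B : List ℕ} {n : ℕ} (h : n ∈ (NCF z B).vars) : n = z ∨ n ∈ B := by
  simp only [NCF, vars, Finset.mem_union] at h
  rcases h with h | h
  · rcases disjL_vars h with h | ⟨D, hD, h⟩
    · exact Or.inl h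
    · obtain ⟨b, hb, rfl⟩ := List.mem_map.1 hD
      simp [vars] at h; subst h; exact Or.inr hb
  · rcases disjL_vars h with h | ⟨D, hD, h⟩
    · exact Or.inl h
    · obtain ⟨b, hb, rfl⟩ := List.mem_map.1 hD
      simp [vars] at h; subst h; exact Or.inr hb

/-- `m` blocks, starting with the block `i` -/
noncomputable def NL (z : ℕ) (A : Fm) : ℕ → ℕ → List Fm
  | _, 0 => []
  | i, m + 1 => NCF z (bl i A) :: NL z A (i + 1) m

theorem NL_size (z : ℕ) (A : Fm) : ∀ (m i : ℕ),
    (conjL z (NL z A i m)).size ≤ 15 * m * A.size + 3 := by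
  intro m
  induction m with
  | zero => intro i; simp [NL, conjL, size]
  | succ m ih =>
    intro i
    simp only [NL, conjL, size, NCF_size]
    have h1 := ih (i + 1)
    have h2 := bl_length i A
    have h3 := size_pos A
    nlinarith

theorem NL_vars {z : ℕ} {A : Fm} {n : ℕ} : ∀ {m i : ℕ},
    n ∈ (conjL z (NL z A i m)).vars → n = z ∨ i ≤ (Nat.unpair n).1 := by
  intro m
  induction m with
  | zero => intro i h; simp [NL, conjL, vars] at h; exact Or.inl h
  | succ m ih =>
    intro i h
    simp only [NL, conjL, vars, Finset.mem_union] at h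
    rcases h with h | h
    · rcases NCF_vars h with h | h
      · exact Or.inl h
      · exact Or.inr (copy_type h).ge
    · rcases ih h with h | h
      · exact Or.inl h
      · exact Or.inr (by omega)

theorem loop (hF : IsFrege F) : ∃ c : ℕ, ∀ (z : ℕ) (A : Fm) (M : ℕ), z ∈ (copy 0 A).vars →
    ∀ (Ds : List Fm), WFExt (copy 0 A) Ds → (∀ D ∈ Ds, ∀ n ∈ D.vars, (Nat.unpair n).1 = 0) →
    ∀ m : ℕ, 15 * (Ds.length + m) * A.size + (conjL z Ds).size + A.size + 20 + 14 * A.size ≤ M →
    ∀ Γ : Set Fm,
      imp (conjL z (NL z A (Ds.length + 1) m)) (imp (conjL z Ds) (copy 0 A)) ∈ Γ →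
      Can F Γ [imp (conjL z (NL z A 1 (Ds.length + m))) (imp (conjL z []) (copy 0 A))]
        (c * M * (A.size + 1) * Ds.length) := by
  obtain ⟨c, hc⟩ := block_step hF
  refine ⟨c, fun z A M hz Ds => ?_⟩
  have hz0 : (Nat.unpair z).1 = 0 := copy_type (copy_vars hz)
  induction Ds with
  | nil =>
    intro _ _ m _ Γ hΓ
    simp only [List.length_nil, zero_add] at hΓ ⊢
    exact (Can.hyp hΓ).mono subset_rfl (Nat.zero_le _)
  | cons D Ds ih =>
    rintro ⟨⟨e, ψ, rfl, h1, h2, h3⟩, h4⟩ hty m hM Γ hΓ
    have hez : e ≠ z := fun h => h2 (h ▸ hz)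
    have hety : (Nat.unpair e).1 = 0 := hty (iff (var e) ψ) (by simp) e (by simp [iff, vars])
    have hψty : ∀ n ∈ ψ.vars, (Nat.unpair n).1 = 0 := fun n hn =>
      hty (iff (var e) ψ) (by simp) n (by simp [iff, vars, hn])
    have hDty : ∀ D ∈ Ds, ∀ n ∈ D.vars, (Nat.unpair n).1 = 0 := fun D hD =>
      hty D (List.mem_cons_of_mem _ hD)
    have hlen : (iff (var e) ψ :: Ds).length = Ds.length + 1 := rfl
    have hcs : (conjL z (iff (var e) ψ :: Ds)).size = (iff (var e) ψ).size + (conjL z Ds).size + 1 :=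
      rfl
    have hc0 : (copy 0 A).size = A.size := size_rename _ _
    rw [hlen] at hM hΓ
    have hN := NL_size z A m (Ds.length + 1 + 1)
    have s := hc z e ψ (conjL z (NL z A (Ds.length + 1 + 1) m)) (conjL z Ds) (copy 0 A)
      (bl (Ds.length + 1) A) M h1 (by
        intro h
        rcases NL_vars h with h | h
        · exact hez h
        · omega) (by
        intro h
        rcases conjL_vars h with h | ⟨D, hD, h⟩
        · exact hez h
        · exact h3 D hD h) h2 (by
        intro b hb
        have hbt := copy_type hb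
        refine ⟨fun h => ?_, fun h => ?_, fun h => ?_, fun h => ?_, fun h => ?_⟩
        · have := hψty b h; omega
        · rcases NL_vars h with h | h
          · rw [h] at hbt; omega
          · omega
        · rcases conjL_vars h with h | ⟨D, hD, h⟩
          · rw [h] at hbt; omega
          · have := hDty D hD b h; omega
        · have := copy_type (copy_vars h); omega
        · rw [h] at hbt; omega) (by
        rw [hcs] at hM
        simp only [size, hc0] at hM ⊢
        nlinarith [size_pos A]) (by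
        rw [NCF_size]
        have := bl_length (Ds.length + 1) A
        have := size_pos A
        nlinarith) Γ hΓ
    have t := ih h4 hDty (m + 1) (by
      rw [hcs] at hM
      nlinarith) (Γ ∪ {Y | Y ∈ [imp (and (NCF z (bl (Ds.length + 1) A))
        (conjL z (NL z A (Ds.length + 1 + 1) m))) (imp (conjL z Ds) (copy 0 A))]}) (by
      right; simp [NL, conjL])
    have e1 : (iff (var e) ψ :: Ds).length + m = Ds.length + (m + 1) := by
      simp only [List.length_cons]; omega
    rw [e1]
    refine (s.cut t).mono subset_rfl ?_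
    rw [hlen]
    have := bl_length (Ds.length + 1) A
    have h6 : c * M * ((bl (Ds.length + 1) A).length + 1) ≤ c * M * (A.size + 1) :=
      Nat.mul_le_mul_left _ (by omega)
    nlinarith

/-! ### a valid formula or a non-constant block -/

/-- the value of a formula when all variables have the value `t` -/
def cv (t : Bool) : Fm → Bool
  | .var _ => t
  | .neg A => !cv t A
  | .and A B => cv t A && cv t B
  | .or A B => cv t A || cv t B
  | .imp A B => !cv t A || cv t B

theorem cv_eval (t : Bool) (A : Fm) : cv t A = true ↔ A.eval (fun _ => t = true) := by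
  induction A with
  | var n => simp [cv, eval]
  | neg A ih => simp only [cv, eval, ← ih]; simp
  | and A B iA iB => simp only [cv, eval, ← iA, ← iB]; simp
  | or A B iA iB => simp only [cv, eval, ← iA, ← iB]; simp
  | imp A B iA iB => simp only [cv, eval, ← iA, ← iB]; cases cv t A <;> simp

/-- `A` or its negation -/
def sg (b : Bool) (A : Fm) : Fm := if b = true then A else neg A

theorem sg_size (b : Bool) (A : Fm) : (sg b A).size ≤ A.size + 1 := by
  cases b <;> simp [sg, size]

theorem sg_subst (b : Bool) (A : Fm) (σ : ℕ → Fm) : (sg b A).subst σ = sg b (A.subst σ) := by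
  cases b <;> simp [sg, subst]

theorem evalL (hF : IsFrege F) : ∃ c : ℕ, ∀ (t : Bool) (U : Fm) (M : ℕ), 1 ≤ M → U.size ≤ M →
    ∀ (C : Fm), C.size ≤ M → ∀ Γ : Set Fm, (∀ n ∈ C.vars, imp U (sg t (var n)) ∈ Γ) →
      Can F Γ [imp U (sg (cv t C) C)] (c * M * C.size) := by
  have h1 : ∀ b : Bool, ∃ c : ℕ, ∀ (l : List Fm) (M : ℕ), 1 ≤ M → (∀ X ∈ l, X.size ≤ M) →
      ∀ Γ : Set Fm, (∀ A ∈ [imp (var 0) (sg b (var 1))], A.subst (asg l) ∈ Γ) →
        Can F Γ [(imp (var 0) (sg (!b) (neg (var 1)))).subst (asg l)] (c * M) := fun b =>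
    schemaL hF _ _ (by intro v h; cases b <;> simp [sg, eval] at h ⊢ <;> tauto)
  have h2 : ∀ b b' : Bool, ∃ c : ℕ, ∀ (l : List Fm) (M : ℕ), 1 ≤ M → (∀ X ∈ l, X.size ≤ M) →
      ∀ Γ : Set Fm, (∀ A ∈ [imp (var 0) (sg b (var 1)), imp (var 0) (sg b' (var 2))],
        A.subst (asg l) ∈ Γ) →
        Can F Γ [(imp (var 0) (sg (b && b') (and (var 1) (var 2)))).subst (asg l)] (c * M) :=
    fun b b' => schemaL hF _ _ (by
      intro v h; cases b <;> cases b' <;> simp [sg, eval] at h ⊢ <;> tauto)
  have h3 : ∀ b b' : Bool, ∃ c : ℕ, ∀ (l : List Fm) (M : ℕ), 1 ≤ M → (∀ X ∈ l, X.size ≤ M) →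
      ∀ Γ : Set Fm, (∀ A ∈ [imp (var 0) (sg b (var 1)), imp (var 0) (sg b' (var 2))],
        A.subst (asg l) ∈ Γ) →
        Can F Γ [(imp (var 0) (sg (b || b') (or (var 1) (var 2)))).subst (asg l)] (c * M) :=
    fun b b' => schemaL hF _ _ (by
      intro v h; cases b <;> cases b' <;> simp [sg, eval] at h ⊢ <;> tauto)
  have h4 : ∀ b b' : Bool, ∃ c : ℕ, ∀ (l : List Fm) (M : ℕ), 1 ≤ M → (∀ X ∈ l, X.size ≤ M) →
      ∀ Γ : Set Fm, (∀ A ∈ [imp (var 0) (sg b (var 1)), imp (var 0) (sg b' (var 2))],
        A.subst (asg l) ∈ Γ) →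
        Can F Γ [(imp (var 0) (sg (!b || b') (imp (var 1) (var 2)))).subst (asg l)] (c * M) :=
    fun b b' => schemaL hF _ _ (by
      intro v h; cases b <;> cases b' <;> simp [sg, eval] at h ⊢ <;> tauto)
  choose c₁ h₁ using h1
  choose c₂ h₂ using h2
  choose c₃ h₃ using h3
  choose c₄ h₄ using h4
  have hsum : ∃ c : ℕ, (∀ b, c₁ b ≤ c) ∧ (∀ b b', c₂ b b' ≤ c) ∧ (∀ b b', c₃ b b' ≤ c) ∧
      (∀ b b', c₄ b b' ≤ c) := by
    refine ⟨∑ b, c₁ b + ∑ b, ∑ b', c₂ b b' + ∑ b, ∑ b', c₃ b b' + ∑ b, ∑ b', c₄ b b',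
      ?_, ?_, ?_, ?_⟩ <;> simp only [Fintype.sum_bool]
    · intro b; cases b <;> omega
    · intro b b'; cases b <;> cases b' <;> omega
    · intro b b'; cases b <;> cases b' <;> omega
    · intro b b'; cases b <;> cases b' <;> omega
  obtain ⟨c, hc1, hc2, hc3, hc4⟩ := hsum
  refine ⟨c, fun t U M hM hU C => ?_⟩
  induction C with
  | var n =>
    intro _ Γ hΓ
    exact (Can.hyp (hΓ n (by simp [vars]))).mono subset_rfl (Nat.zero_le _)
  | neg C ih =>
    intro hs Γ hΓ
    simp only [size] at hs
    have r := ih (by omega) Γ hΓ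
    have s := h₁ (cv t C) [U, C] M hM (by
      intro X hX; simp at hX; rcases hX with rfl | rfl
      exacts [hU, by omega]) (Γ ∪ {Y | Y ∈ [imp U (sg (cv t C) C)]}) (by
      intro Y hY; simp only [List.mem_singleton] at hY; subst hY
      right; simp [subst, asg, sg_subst])
    refine ((r.cut s).sub (by simp [subst, asg, sg_subst, cv])).mono subset_rfl ?_
    simp only [size]
    have := Nat.mul_le_mul_right M (hc1 (cv t C))
    nlinarith
  | and A B iA iB =>
    intro hs Γ hΓ
    simp only [size] at hs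
    have rA := iA (by omega) Γ (fun n hn => hΓ n (by simp [vars, hn]))
    have rB := iB (by omega) Γ (fun n hn => hΓ n (by simp [vars, hn]))
    have s := h₂ (cv t A) (cv t B) [U, A, B] M hM (by
      intro X hX; simp at hX; rcases hX with rfl | rfl | rfl
      exacts [hU, by omega, by omega])
      (Γ ∪ {Y | Y ∈ [imp U (sg (cv t A) A)] ++ [imp U (sg (cv t B) B)]}) (by
      intro Y hY; simp only [List.mem_cons, List.not_mem_nil, or_false] at hY
      rcases hY with rfl | rfl <;> right <;> simp [subst, asg, sg_subst])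
    refine (((rA.append rB).cut s).sub (by simp [subst, asg, sg_subst, cv])).mono subset_rfl ?_
    simp only [size]
    have := Nat.mul_le_mul_right M (hc2 (cv t A) (cv t B))
    nlinarith
  | or A B iA iB =>
    intro hs Γ hΓ
    simp only [size] at hs
    have rA := iA (by omega) Γ (fun n hn => hΓ n (by simp [vars, hn]))
    have rB := iB (by omega) Γ (fun n hn => hΓ n (by simp [vars, hn]))
    have s := h₃ (cv t A) (cv t B) [U, A, B] M hM (by
      intro X hX; simp at hX; rcases hX with rfl | rfl | rfl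
      exacts [hU, by omega, by omega])
      (Γ ∪ {Y | Y ∈ [imp U (sg (cv t A) A)] ++ [imp U (sg (cv t B) B)]}) (by
      intro Y hY; simp only [List.mem_cons, List.not_mem_nil, or_false] at hY
      rcases hY with rfl | rfl <;> right <;> simp [subst, asg, sg_subst])
    refine (((rA.append rB).cut s).sub (by simp [subst, asg, sg_subst, cv])).mono subset_rfl ?_
    simp only [size]
    have := Nat.mul_le_mul_right M (hc3 (cv t A) (cv t B))
    nlinarith
  | imp A B iA iB =>
    intro hs Γ hΓ
    simp only [size] at hs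
    have rA := iA (by omega) Γ (fun n hn => hΓ n (by simp [vars, hn]))
    have rB := iB (by omega) Γ (fun n hn => hΓ n (by simp [vars, hn]))
    have s := h₄ (cv t A) (cv t B) [U, A, B] M hM (by
      intro X hX; simp at hX; rcases hX with rfl | rfl | rfl
      exacts [hU, by omega, by omega])
      (Γ ∪ {Y | Y ∈ [imp U (sg (cv t A) A)] ++ [imp U (sg (cv t B) B)]}) (by
      intro Y hY; simp only [List.mem_cons, List.not_mem_nil, or_false] at hY
      rcases hY with rfl | rfl <;> right <;> simp [subst, asg, sg_subst])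
    refine (((rA.append rB).cut s).sub (by simp [subst, asg, sg_subst, cv])).mono subset_rfl ?_
    simp only [size]
    have := Nat.mul_le_mul_right M (hc4 (cv t A) (cv t B))
    nlinarith

end Pool.Agent.H555R2.PF
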