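import Pool.Agent.H555R2.PF.Ded

set_option autoImplicit false

namespace Pool.Agent.H555R2.PF

open Fm

variable {F : List Rule}

/-! ### the block step -/

theorem disj_elim (hF : IsFrege F) : ∃ c : ℕ, ∀ (z : ℕ) (W G : Fm) (lits : List Fm) (M : ℕ),
    1 ≤ M → W.size ≤ M → G.size ≤ M → (disjL z lits).size ≤ M → ∀ Γ : Set Fm,
      (∀ l ∈ lits, imp W (imp l G) ∈ Γ) →
      Can F Γ [imp W (imp (disjL z lits) G)] (c * M * (lits.length + 1)) := by
  obtain ⟨c₁, h₁⟩ := schemaL hF [] (imp (var 0) (imp (neg (imp (var 1) (var 1))) (var 2))) (by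
    intro v _; simp [eval])
  obtain ⟨c₂, h₂⟩ := schemaL hF [imp (var 0) (imp (var 1) (var 3)),
    imp (var 0) (imp (var 2) (var 3))] (imp (var 0) (imp (or (var 1) (var 2)) (var 3))) (by
    intro v h; simp [eval] at h ⊢; tauto)
  refine ⟨c₁ + c₂, fun z W G lits M hM hW hG => ?_⟩
  induction lits with
  | nil =>
    intro _ Γ _
    refine (h₁ [W, var z, G] M hM ?_ Γ (by simp)).mono subset_rfl ?_
    · intro X hX; simp at hX
      rcases hX with rfl | rfl | rfl
      exacts [hW, by simpa [size] using hM, hG]
    · simp only [List.length_nil, zero_add, mul_one]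
      exact Nat.mul_le_mul_right _ (by omega)
  | cons l ls ih =>
    intro hs Γ hΓ
    have hs' : l.size ≤ M ∧ (disjL z ls).size ≤ M := by
      simp only [disjL, size] at hs; omega
    have h3 := ih hs'.2 Γ (fun l' hl' => hΓ l' (by simp [hl']))
    have h5 := h₂ [W, l, disjL z ls, G] M hM (by
      intro X hX; simp at hX; rcases hX with rfl | rfl | rfl | rfl
      exacts [hW, hs'.1, hs'.2, hG]) (Γ ∪ {B | B ∈ [imp W (imp (disjL z ls) G)]}) (by
        intro A hA
        simp only [List.mem_cons, List.not_mem_nil, or_false] at hA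
        rcases hA with rfl | rfl
        · left; exact hΓ l (by simp)
        · right; simp [subst, asg])
    refine (h3.cut h5).mono subset_rfl ?_
    simp only [List.length_cons]; nlinarith

/-- the block `B` of variables is not constant -/
def NCF (z : ℕ) (B : List ℕ) : Fm :=
  and (disjL z (B.map var)) (disjL z (B.map (fun b => neg (var b))))

theorem block_step (hF : IsFrege F) : ∃ c : ℕ, ∀ (z e : ℕ) (ψ N E A : Fm) (B : List ℕ) (M : ℕ),
    e ∉ ψ.vars → e ∉ N.vars → e ∉ E.vars → e ∉ A.vars →
    (∀ b ∈ B, b ∉ ψ.vars ∧ b ∉ N.vars ∧ b ∉ E.vars ∧ b ∉ A.vars ∧ b ≠ e) →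
    (imp N (imp (and (iff (var e) ψ) E) A)).size + 4 ≤ M → (NCF z B).size ≤ M →
    ∀ Γ : Set Fm, imp N (imp (and (iff (var e) ψ) E) A) ∈ Γ →
      Can F Γ [imp (and (NCF z B) N) (imp E A)] (c * M * (B.length + 1)) := by
  obtain ⟨c₁, h₁⟩ := schemaL hF [var 0] (and (var 0) (imp (var 1) (var 1))) (by
    intro v h; simp [eval] at h ⊢; tauto)
  obtain ⟨c₃, h₃⟩ := schemaL hF [and (imp (var 0) (imp (and (and (imp (var 1) (var 2))
    (imp (var 2) (var 1))) (var 3)) (var 4))) (imp (var 5) (var 5))]
    (imp (var 2) (imp (var 1) (imp (var 0) (imp (var 3) (var 4))))) (by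
    intro v h; simp [eval] at h ⊢; tauto)
  obtain ⟨c₄, h₄⟩ := schemaL hF [and (imp (var 0) (imp (and (and (imp (var 1) (var 2))
    (imp (var 2) (var 1))) (var 3)) (var 4))) (imp (var 5) (var 5))]
    (imp (neg (var 2)) (imp (neg (var 1)) (imp (var 0) (imp (var 3) (var 4))))) (by
    intro v h; simp [eval] at h ⊢; tauto)
  obtain ⟨c₅, h₅⟩ := disj_elim hF
  obtain ⟨c₆, h₆⟩ := schemaL hF [imp (var 0) (imp (var 1) (imp (var 3) (imp (var 4) (var 5)))),
    imp (neg (var 0)) (imp (var 2) (imp (var 3) (imp (var 4) (var 5))))]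
    (imp (and (and (var 1) (var 2)) (var 3)) (imp (var 4) (var 5))) (by
    intro v h; simp [eval] at h ⊢; tauto)
  refine ⟨2 * (c₁ + 1 + c₃ + c₄) + 2 * c₅ + c₆, ?_⟩
  intro z e ψ N E A B M he1 he2 he3 he4 hB hX hNC Γ hΓ
  have hM : 1 ≤ M := by have := Fm.size_pos A; omega
  -- sizes
  have hsz : N.size + ψ.size + ψ.size + E.size + A.size + 12 ≤ M := by
    simp only [iff, size] at hX; omega
  have hpos := Fm.size_pos ψ
  have hGs : (imp N (imp E A)).size ≤ M := by simp only [size]; omega
  have hd : (disjL z (B.map var)).size ≤ M ∧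
      (disjL z (B.map (fun b => neg (var b)))).size ≤ M := by
    simp only [NCF, size] at hNC; omega
  -- one variable of the block
  have key : ∀ b ∈ B, Can F Γ [imp ψ (imp (var b) (imp N (imp E A))),
      imp (neg ψ) (imp (neg (var b)) (imp N (imp E A)))] ((c₁ + 1 + c₃ + c₄) * M) := by
    intro b hb
    obtain ⟨hb1, hb2, hb3, hb4, hb5⟩ := hB b hb
    set X := imp N (imp (and (iff (var e) ψ) E) A) with hXdef
    have s1 := h₁ [X, var b] M hM (by
      intro Y hY; simp at hY; rcases hY with rfl | rfl
      · omega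
      · simpa [size] using hM) Γ (by
      intro Y hY; simp only [List.mem_singleton] at hY; subst hY; simpa [subst, asg] using hΓ)
    have e1 : (and (var 0) (imp (var 1) (var 1))).subst (asg [X, var b]) =
        and X (imp (var b) (var b)) := by simp [subst, asg]
    rw [e1] at s1
    have s2 := Can.perm (F := F) (Γ := Γ ∪ {Y | Y ∈ [and X (imp (var b) (var b))]})
      (A := and X (imp (var b) (var b))) (Or.inr (by simp)) (Equiv.swap e b) (by
        intro n hn
        apply Equiv.swap_apply_of_ne_of_ne
        · rintro rfl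
          apply hn
          simp [vars, hXdef, iff]
        · rintro rfl
          apply hn
          simp [vars])
    have ren : ∀ C : Fm, e ∉ C.vars → b ∉ C.vars → C.rename (Equiv.swap e b) = C := by
      intro C h1 h2
      apply rename_eq_self
      intro n hn
      apply Equiv.swap_apply_of_ne_of_ne
      · rintro rfl; exact h1 hn
      · rintro rfl; exact h2 hn
    have e2 : (and X (imp (var b) (var b))).rename (Equiv.swap e b) =
        and (imp N (imp (and (and (imp (var b) ψ) (imp ψ (var b))) E) A))
          (imp (var e) (var e)) := by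
      have r1 := ren N he2 hb2
      have r2 := ren ψ he1 hb1
      have r3 := ren E he3 hb3
      have r4 := ren A he4 hb4
      unfold rename at r1 r2 r3 r4
      simp only [hXdef, iff, rename, subst, r1, r2, r3, r4, Equiv.swap_apply_left,
        Equiv.swap_apply_right]
    rw [e2] at s2
    have hl : ∀ Y ∈ [N, var b, ψ, E, A, var e], Y.size ≤ M := by
      intro Y hY; simp at hY
      rcases hY with rfl | rfl | rfl | rfl | rfl | rfl
      · omega
      · simpa [size] using hM
      · omega
      · omega
      · omega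
      · simpa [size] using hM
    have s12 := s1.cut s2
    have s3 := h₃ [N, var b, ψ, E, A, var e] M hM hl
      (Γ ∪ {Y | Y ∈ [and (imp N (imp (and (and (imp (var b) ψ) (imp ψ (var b))) E) A))
          (imp (var e) (var e))]}) (by
        intro Y hY; simp only [List.mem_singleton] at hY; subst hY
        right; simp [subst, asg])
    have s4 := h₄ [N, var b, ψ, E, A, var e] M hM hl
      (Γ ∪ {Y | Y ∈ [and (imp N (imp (and (and (imp (var b) ψ) (imp ψ (var b))) E) A))
          (imp (var e) (var e))]}) (by
        intro Y hY; simp only [List.mem_singleton] at hY; subst hY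
        right; simp [subst, asg])
    have s5 := s12.cut (s3.append s4)
    refine (s5.sub (by simp [subst, asg])).mono subset_rfl ?_
    have : (and X (imp (var b) (var b))).size ≤ M := by
      simp only [size] at hX ⊢; omega
    nlinarith
  have kP := Can.many (F := F) (Γ := Γ) (fun b => imp ψ (imp (var b) (imp N (imp E A))))
    ((c₁ + 1 + c₃ + c₄) * M) B (fun b hb => (key b hb).sub (by simp))
  have kQ := Can.many (F := F) (Γ := Γ)
    (fun b => imp (neg ψ) (imp (neg (var b)) (imp N (imp E A))))
    ((c₁ + 1 + c₃ + c₄) * M) B (fun b hb => (key b hb).sub (by simp))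
  have p1 := h₅ z ψ (imp N (imp E A)) (B.map var) M hM (by omega) hGs hd.1
    (Γ ∪ {Y | Y ∈ B.map (fun b => imp ψ (imp (var b) (imp N (imp E A))))}) (by
      intro l hl
      obtain ⟨b, hb, rfl⟩ := List.mem_map.1 hl
      right
      exact List.mem_map.2 ⟨b, hb, rfl⟩)
  have p2 := h₅ z (neg ψ) (imp N (imp E A)) (B.map (fun b => neg (var b))) M hM
    (by simp only [size]; omega) hGs hd.2
    (Γ ∪ {Y | Y ∈ B.map (fun b => imp (neg ψ) (imp (neg (var b)) (imp N (imp E A))))}) (by
      intro l hl
      obtain ⟨b, hb, rfl⟩ := List.mem_map.1 hl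
      right
      exact List.mem_map.2 ⟨b, hb, rfl⟩)
  have q := (kP.cut p1).append (kQ.cut p2)
  have f := h₆ [ψ, disjL z (B.map var), disjL z (B.map (fun b => neg (var b))), N, E, A] M hM (by
      intro Y hY; simp at hY
      rcases hY with rfl | rfl | rfl | rfl | rfl | rfl
      exacts [by omega, hd.1, hd.2, by omega, by omega, by omega])
    (Γ ∪ {Y | Y ∈ [imp ψ (imp (disjL z (B.map var)) (imp N (imp E A)))] ++
      [imp (neg ψ) (imp (disjL z (B.map (fun b => neg (var b)))) (imp N (imp E A)))]}) (by
      intro Y hY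
      simp only [List.mem_cons, List.not_mem_nil, or_false] at hY
      rcases hY with rfl | rfl
      · right; simp [subst, asg]
      · right; simp [subst, asg])
  refine ((q.cut f).sub (by simp [subst, asg, NCF])).mono subset_rfl ?_
  simp only [List.length_map]
  nlinarith [Nat.zero_le (c₆ * M * B.length)]

end Pool.Agent.H555R2.PF
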